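import Pool.Agent.H13.WcsD

namespace Pool.Agent.Results.MP_537c9d_co.One

open Pool.Agent.H13.Wcs

theorem result (k : ℕ) (hk : 1 ≤ k) (σ : ℕ → ℕ) (h : IsWCS k σ) : σ 1 = 1 ∨ σ k = 1 :=
  end_one h hk

end Pool.Agent.Results.MP_537c9d_co.One
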